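import Mathlib.Algebra.TrivSqZeroExt.Basic
import Mathlib.LinearAlgebra.LinearIndependent.Lemmas
import Mathlib.InformationTheory.Hamming
import Mathlib.Data.Nat.Choose.Central
import Mathlib.RingTheory.NonUnitalSubring.Basic
import Mathlib.Tactic

set_option autoImplicit false

/-!
# Products of difference sets in finite commutative rings need not contain large subrings

For every `α < 1/2` and all `N`, `k` there is a finite commutative ring `R` with `|R| ≥ N` and a
set `E ⊆ R` with `|E| ≥ α |R|` such that `(E - E)(E - E)` contains no subring of index at most `k`.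
The ring is the trivial square zero extension of `𝔽₂` by `𝔽₂ⁿ`.
-/

namespace Pool.Agent.Results.MP_96ce97_co.NoLargeSubring

/-- the vector space `𝔽₂ⁿ` -/
abbrev Vec (n : ℕ) : Type := Fin n → ZMod 2

theorem zmod2_cases (x : ZMod 2) : x = 0 ∨ x = 1 := by
  revert x; decide

/-- two heavy vectors differ in few places -/
theorem hammingNorm_sub_le {n t : ℕ} (u v : Vec n) (hu : n + t ≤ 2 * hammingNorm u)
    (hv : n + t ≤ 2 * hammingNorm v) : hammingNorm (u - v) + t ≤ n := by
  have h1 : hammingNorm u + (Finset.univ.filter (fun i => u i = 0)).card = n := by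
    unfold hammingNorm
    have := Finset.card_filter_add_card_filter_not (s := (Finset.univ : Finset (Fin n)))
      (fun i => u i ≠ 0)
    simpa using this
  have h2 : hammingNorm v + (Finset.univ.filter (fun i => v i = 0)).card = n := by
    unfold hammingNorm
    have := Finset.card_filter_add_card_filter_not (s := (Finset.univ : Finset (Fin n)))
      (fun i => v i ≠ 0)
    simpa using this
  have h3 : hammingNorm (u - v) ≤ (Finset.univ.filter (fun i => u i = 0)).card +
      (Finset.univ.filter (fun i => v i = 0)).card := by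
    refine le_trans ?_ (Finset.card_union_le _ _)
    unfold hammingNorm
    apply Finset.card_le_card
    intro i hi
    simp only [Finset.mem_filter, Finset.mem_univ, true_and, Finset.mem_union, Pi.sub_apply] at hi ⊢
    rcases zmod2_cases (u i) with h | h
    · exact Or.inl h
    · rcases zmod2_cases (v i) with h' | h'
      · exact Or.inr h'
      · rw [h, h'] at hi
        exact absurd (sub_self _) hi
  omega

/-- a subspace of index less than `2^t` contains a vector with fewer than `t` zeros -/
theorem exists_heavy {n t : ℕ} (W : Submodule (ZMod 2) (Vec n))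
    (h : 2 ^ n < 2 ^ t * Nat.card W) : ∃ w ∈ W, n < hammingNorm w + t := by
  classical
  have : Fact (Nat.Prime 2) := ⟨Nat.prime_two⟩
  let Q := Vec n ⧸ W
  let v : Fin n → Q := fun i => W.mkQ (Pi.single i 1)
  obtain ⟨κ, a, ha, hspan, hli⟩ := exists_linearIndependent' (ZMod 2) v
  have : Finite κ := Finite.of_injective a ha
  have : Fintype κ := Fintype.ofFinite κ
  have : Fintype Q := Fintype.ofFinite Q
  have hcard : Fintype.card κ ≤ Module.finrank (ZMod 2) Q := hli.fintype_card_le_finrank
  have hQ : Fintype.card Q = 2 ^ Module.finrank (ZMod 2) Q := by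
    rw [Module.card_eq_pow_finrank (K := ZMod 2) (V := Q), ZMod.card]
  have hV : 2 ^ n = Fintype.card Q * Nat.card W := by
    have h1 := W.toAddSubgroup.card_eq_card_quotient_mul_card_addSubgroup
    have h2 : Nat.card (Vec n) = 2 ^ n := by
      rw [Nat.card_eq_fintype_card]
      simp [Vec]
    rw [h2] at h1
    rw [h1, ← Nat.card_eq_fintype_card]
    rfl
  have hd : Module.finrank (ZMod 2) Q < t := by
    rw [hV, hQ] at h
    have := lt_of_mul_lt_mul_right h (Nat.zero_le _)
    exact (Nat.pow_lt_pow_iff_right (by norm_num)).mp this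
  -- the all ones vector
  have h1 : W.mkQ (fun _ => 1) ∈ Submodule.span (ZMod 2) (Set.range v) := by
    have e : (fun _ => 1 : Vec n) = ∑ i, Pi.single i (1 : ZMod 2) := by
      rw [← Finset.univ_sum_single (fun _ => (1 : ZMod 2))]
    rw [e, map_sum]
    exact Submodule.sum_mem _ fun i _ => Submodule.subset_span ⟨i, rfl⟩
  rw [← hspan] at h1
  have e2 : v ∘ a = W.mkQ ∘ (fun k => (Pi.single (a k) 1 : Vec n)) := rfl
  rw [e2, Set.range_comp, ← Submodule.map_span] at h1
  obtain ⟨u, hu, hu1⟩ := h1
  refine ⟨(fun _ => 1) - u, ?_, ?_⟩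
  · rw [← Submodule.Quotient.mk_eq_zero, Submodule.Quotient.mk_sub, sub_eq_zero]
    exact hu1.symm
  · -- `u` vanishes outside the range of `a`
    have hu0 : ∀ i, i ∉ Set.range a → u i = 0 := by
      intro i hi
      have : ∀ x ∈ Submodule.span (ZMod 2) (Set.range fun k => (Pi.single (a k) 1 : Vec n)),
          x i = 0 := by
        intro x hx
        induction hx using Submodule.span_induction with
        | mem x hx =>
          obtain ⟨k, rfl⟩ := hx
          change (Pi.single (a k) (1 : ZMod 2) : Vec n) i = 0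
          rw [Pi.single_apply, if_neg]
          rintro rfl
          exact hi ⟨k, rfl⟩
        | zero => rfl
        | add x y _ _ hx hy => rw [Pi.add_apply, hx, hy, add_zero]
        | smul c x _ hx => rw [Pi.smul_apply, hx, smul_zero]
      exact this u hu
    have h3 : (Finset.univ \ Finset.image a Finset.univ).card ≤
        hammingNorm ((fun _ => 1 : Vec n) - u) := by
      unfold hammingNorm
      apply Finset.card_le_card
      intro i hi
      simp only [Finset.mem_sdiff, Finset.mem_univ, Finset.mem_image, true_and,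
        Finset.mem_filter, Pi.sub_apply] at hi ⊢
      rw [hu0 i (by simpa using hi), sub_zero]
      exact one_ne_zero
    have h4 : n ≤ (Finset.univ \ Finset.image a Finset.univ).card + Fintype.card κ := by
      have h5 := Finset.card_le_card_sdiff_add_card (s := (Finset.univ : Finset (Fin n)))
        (t := Finset.image a Finset.univ)
      have h6 : (Finset.image a Finset.univ).card ≤ Fintype.card κ := Finset.card_image_le
      simp only [Finset.card_univ, Fintype.card_fin] at h5
      omega
    omega

/-- central binomial coefficients are small -/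
theorem centralBinom_sq_le (m : ℕ) : m.centralBinom ^ 2 * (2 * m + 1) ≤ 16 ^ m := by
  induction m with
  | zero => simp
  | succ m ih =>
    have h := Nat.succ_mul_centralBinom_succ m
    have h2 : (m + 1) ^ 2 * ((m + 1).centralBinom ^ 2 * (2 * (m + 1) + 1)) =
        4 * (2 * m + 1) * (2 * m + 3) * (m.centralBinom ^ 2 * (2 * m + 1)) := by
      calc (m + 1) ^ 2 * ((m + 1).centralBinom ^ 2 * (2 * (m + 1) + 1))
          = ((m + 1) * (m + 1).centralBinom) ^ 2 * (2 * m + 3) := by ring
        _ = (2 * (2 * m + 1) * m.centralBinom) ^ 2 * (2 * m + 3) := by rw [h]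
        _ = _ := by ring
    have h3 : (m + 1) ^ 2 * ((m + 1).centralBinom ^ 2 * (2 * (m + 1) + 1)) ≤
        (m + 1) ^ 2 * 16 ^ (m + 1) := by
      rw [h2]
      calc 4 * (2 * m + 1) * (2 * m + 3) * (m.centralBinom ^ 2 * (2 * m + 1))
          ≤ 4 * (2 * m + 1) * (2 * m + 3) * 16 ^ m := Nat.mul_le_mul_left _ ih
        _ ≤ (16 * (m + 1) ^ 2) * 16 ^ m := by
          apply Nat.mul_le_mul_right
          nlinarith
        _ = _ := by ring
    exact Nat.le_of_mul_le_mul_left h3 (by positivity)

/-- the number of large subsets of a set of size `2m` -/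
theorem card_large (m t : ℕ) :
    4 ^ m ≤ 2 * (Finset.univ.filter (fun A : Finset (Fin (2 * m)) => m + t ≤ A.card)).card +
      2 * t * m.centralBinom := by
  classical
  set X := Finset.univ.filter (fun A : Finset (Fin (2 * m)) => m + t ≤ A.card) with hX
  set Y := Finset.univ.filter (fun A : Finset (Fin (2 * m)) => A.card + t ≤ m) with hY
  have hXY : Y.card ≤ X.card := by
    apply Finset.card_le_card_of_injOn (fun A => Aᶜ)
    · intro A hA
      simp only [hX, hY, Finset.coe_filter, Finset.mem_univ, true_and, Set.mem_ofPred_eq,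
        Finset.card_compl, Fintype.card_fin] at hA ⊢
      omega
    · intro A _ B _ h
      exact compl_injective h
  have hcover : (Finset.univ : Finset (Finset (Fin (2 * m)))) ⊆
      (X ∪ Y) ∪ (Finset.range (2 * t)).biUnion (fun j =>
        Finset.powersetCard (j + (m - t)) Finset.univ) := by
    intro A _
    simp only [Finset.mem_union, Finset.mem_biUnion, Finset.mem_range,
      Finset.mem_powersetCard, Finset.subset_univ, true_and, hX, hY, Finset.mem_filter,
      Finset.mem_univ]
    by_cases h1 : m + t ≤ A.card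
    · exact Or.inl (Or.inl h1)
    · by_cases h2 : A.card + t ≤ m
      · exact Or.inl (Or.inr h2)
      · right
        exact ⟨A.card - (m - t), by omega, by omega⟩
  have h1 := Finset.card_le_card hcover
  rw [Finset.card_univ, Fintype.card_finset, Fintype.card_fin] at h1
  have h2 : ((Finset.range (2 * t)).biUnion (fun j =>
        Finset.powersetCard (j + (m - t)) (Finset.univ : Finset (Fin (2 * m))))).card ≤ 2 * t * m.centralBinom := by
    refine le_trans Finset.card_biUnion_le ?_
    refine le_trans (Finset.sum_le_card_nsmul _ _ m.centralBinom ?_) ?_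
    · intro j _
      simp only [Finset.card_powersetCard, Finset.card_univ, Fintype.card_fin]
      exact Nat.choose_le_centralBinom _ _
    · simp
  have h3 := Finset.card_union_le (X ∪ Y) ((Finset.range (2 * t)).biUnion (fun j =>
        Finset.powersetCard (j + (m - t)) (Finset.univ : Finset (Fin (2 * m)))))
  have h4 := Finset.card_union_le X Y
  have h5 : 2 ^ (2 * m) = 4 ^ m := by rw [pow_mul]; norm_num
  rw [h5] at h1
  omega

/-- the set of heavy vectors -/
def heavy (n t : ℕ) : Finset (Vec n) := Finset.univ.filter (fun v => n + t ≤ 2 * hammingNorm v)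

theorem card_heavy (m t : ℕ) :
    4 ^ m ≤ 2 * (heavy (2 * m) (2 * t)).card + 2 * t * m.centralBinom := by
  classical
  refine le_trans (card_large m t) ?_
  have : (Finset.univ.filter (fun A : Finset (Fin (2 * m)) => m + t ≤ A.card)).card ≤
      (heavy (2 * m) (2 * t)).card := by
    apply Finset.card_le_card_of_injOn (fun A => fun i => if i ∈ A then 1 else 0)
    · intro A hA
      simp only [Finset.coe_filter, Finset.mem_univ, true_and, Set.mem_ofPred_eq] at hA
      simp only [heavy, Finset.coe_filter, Finset.mem_univ, true_and, Set.mem_ofPred_eq]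
      have : hammingNorm (fun i => if i ∈ A then (1 : ZMod 2) else 0) = A.card := by
        unfold hammingNorm
        congr 1
        ext i
        simp
      rw [this]
      omega
    · intro A _ B _ h
      ext i
      have := congrFun h i
      by_cases h1 : i ∈ A <;> by_cases h2 : i ∈ B <;> simp_all
  omega

/-- the ring `𝔽₂ ⊕ 𝔽₂ⁿ` with `𝔽₂ⁿ` of square zero -/
abbrev Rg (n : ℕ) : Type := TrivSqZeroExt (ZMod 2) (Vec n)

instance (n : ℕ) : Fintype (Rg n) := inferInstanceAs (Fintype (ZMod 2 × Vec n))

theorem card_Rg (n : ℕ) : Fintype.card (Rg n) = 2 * 2 ^ n := by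
  change Fintype.card (ZMod 2 × Vec n) = 2 * 2 ^ n
  simp [Vec]

/-- the set `E` -/
def E (n t : ℕ) : Finset (Rg n) := (Finset.univ : Finset (ZMod 2)) ×ˢ heavy n t

theorem mem_E {n t : ℕ} (x : Rg n) : x ∈ E n t ↔ n + t ≤ 2 * hammingNorm x.snd := by
  have : x ∈ E n t ↔ (x.fst ∈ (Finset.univ : Finset (ZMod 2)) ∧ x.snd ∈ heavy n t) :=
    Finset.mem_product
  rw [this]
  simp [heavy]

theorem card_E (n t : ℕ) : (E n t).card = 2 * (heavy n t).card := by
  have : (E n t).card = (Finset.univ : Finset (ZMod 2)).card * (heavy n t).card :=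
    Finset.card_product _ _
  rw [this]
  simp

/-- elements of `(E - E)(E - E)` with first coordinate zero are light -/
theorem light_of_mem {n t : ℕ} (ht : t ≤ n) (a b c d : Rg n) (ha : a ∈ E n t) (hb : b ∈ E n t)
    (hc : c ∈ E n t) (hd : d ∈ E n t) (h0 : ((a - b) * (c - d)).fst = 0) :
    hammingNorm ((a - b) * (c - d)).snd + t ≤ n := by
  rw [mem_E] at ha hb hc hd
  have h1 := hammingNorm_sub_le a.snd b.snd ha hb
  have h2 := hammingNorm_sub_le c.snd d.snd hc hd
  rw [TrivSqZeroExt.fst_mul] at h0
  rw [TrivSqZeroExt.snd_mul, op_smul_eq_smul]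
  simp only [TrivSqZeroExt.fst_sub, TrivSqZeroExt.snd_sub] at h0 ⊢
  rcases zmod2_cases (a.fst - b.fst) with hx | hx <;>
    rcases zmod2_cases (c.fst - d.fst) with hy | hy
  · simpa [hx, hy] using ht
  · simpa [hx, hy] using h1
  · simpa [hx, hy] using h2
  · rw [hx, hy] at h0
    simp at h0

/-- The main construction. -/
theorem main (n t k : ℕ) (ht : t ≤ n) (hk : k < 2 ^ t) (R₀ : NonUnitalSubring (Rg n))
    (hR : ∀ x ∈ R₀, ∃ a ∈ E n t, ∃ b ∈ E n t, ∃ c ∈ E n t, ∃ d ∈ E n t,
      x = (a - b) * (c - d)) : k * Nat.card R₀ < Fintype.card (Rg n) := by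
  classical
  by_contra hcon
  push Not at hcon
  rw [card_Rg] at hcon
  -- the subspace `W`
  let W : AddSubgroup (Vec n) :=
    { carrier := {v | (TrivSqZeroExt.inr v : Rg n) ∈ R₀}
      add_mem' := by
        intro a b ha hb
        simp only [Set.mem_ofPred_eq, TrivSqZeroExt.inr_add] at ha hb ⊢
        exact add_mem ha hb
      zero_mem' := by
        simp only [Set.mem_ofPred_eq, TrivSqZeroExt.inr_zero]
        exact zero_mem _
      neg_mem' := by
        intro a ha
        simp only [Set.mem_ofPred_eq, TrivSqZeroExt.inr_neg] at ha ⊢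
        exact neg_mem ha }
  have hWmem : ∀ v : Vec n, v ∈ W ↔ (TrivSqZeroExt.inr v : Rg n) ∈ R₀ := fun v => Iff.rfl
  -- `|R₀| ≤ 2 |W|`
  have hcardW : Nat.card R₀ ≤ 2 * Nat.card W := by
    -- the additive map `R₀ → 𝔽₂`
    let φ : R₀ →+ ZMod 2 :=
      { toFun := fun x => (x : Rg n).fst
        map_zero' := rfl
        map_add' := fun _ _ => rfl }
    have h1 := φ.ker.card_eq_card_quotient_mul_card_addSubgroup
    have h2 : Nat.card (R₀ ⧸ φ.ker) ≤ 2 := by
      rw [Nat.card_congr (QuotientAddGroup.quotientKerEquivRange φ).toEquiv]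
      have := Nat.card_le_card_of_injective (Subtype.val : φ.range → ZMod 2)
        Subtype.val_injective
      simpa using this
    have h3 : Nat.card φ.ker ≤ Nat.card W := by
      have hfin : Finite W := inferInstance
      refine Nat.card_le_card_of_injective
        (fun x => (⟨(x.1 : Rg n).snd, ?_⟩ : W)) ?_
      · rw [hWmem]
        have hx : ((x.1 : Rg n)).fst = 0 := x.2
        have : (TrivSqZeroExt.inr (x.1 : Rg n).snd : Rg n) = x.1 := by
          ext
          · simp [hx]
          · simp
        rw [this]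
        exact x.1.2
      · intro x y hxy
        have h4 : (x.1 : Rg n).snd = (y.1 : Rg n).snd := congrArg Subtype.val hxy
        have hx : ((x.1 : Rg n)).fst = 0 := x.2
        have hy : ((y.1 : Rg n)).fst = 0 := y.2
        apply Subtype.ext
        apply Subtype.ext
        exact TrivSqZeroExt.ext (hx.trans hy.symm) h4
    rw [h1]
    exact Nat.mul_le_mul h2 h3
  have hW : 2 ^ n < 2 ^ t * Nat.card (AddSubgroup.toZModSubmodule 2 W) := by
    have e : Nat.card (AddSubgroup.toZModSubmodule 2 W) = Nat.card W := rfl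
    rw [e]
    have hpos : 0 < Nat.card W := Nat.card_pos
    have h1 : 2 * 2 ^ n ≤ k * (2 * Nat.card W) := hcon.trans (Nat.mul_le_mul_left _ hcardW)
    have h2 : 2 ^ n ≤ k * Nat.card W := by nlinarith
    exact lt_of_le_of_lt h2 (Nat.mul_lt_mul_of_pos_right hk hpos)
  obtain ⟨w, hw, hwn⟩ := exists_heavy _ hW
  have hw' : (TrivSqZeroExt.inr w : Rg n) ∈ R₀ := hw
  obtain ⟨a, ha, b, hb, c, hc, d, hd, he⟩ := hR _ hw'
  have h0 : ((a - b) * (c - d)).fst = 0 := by rw [← he]; rfl
  have := light_of_mem ht a b c d ha hb hc hd h0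
  rw [← he] at this
  simp only [TrivSqZeroExt.snd_inr] at this
  omega

/-- For every `α < 1/2` and all `N`, `k` there are a finite commutative ring `R` with `|R| ≥ N` and
a set `E ⊆ R` with `|E| ≥ α |R|` such that every subring of `R` (not necessarily containing `1`)
contained in `(E - E)(E - E)` has index greater than `k`. -/
theorem result : ∀ α : ℝ, α < 1 / 2 → ∀ N k : ℕ,
    ∃ (R : Type) (_ : CommRing R) (_ : Fintype R), N ≤ Fintype.card R ∧
      ∃ E : Finset R, α * Fintype.card R ≤ E.card ∧
        ∀ R₀ : NonUnitalSubring R,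
          (∀ x ∈ R₀, ∃ a ∈ E, ∃ b ∈ E, ∃ c ∈ E, ∃ d ∈ E, x = (a - b) * (c - d)) →
          k * Nat.card R₀ < Fintype.card R := by
  intro α hα N k
  obtain ⟨m₀, hm₀⟩ := exists_nat_ge ((((k : ℝ) + 1) / (1 / 2 - α)) ^ 2)
  set m := m₀ + N + k + 1 with hm
  have hε : 0 < 1 / 2 - α := by linarith
  refine ⟨Rg (2 * m), inferInstance, inferInstance, ?_, E (2 * m) (2 * (k + 1)), ?_, ?_⟩
  · rw [card_Rg]
    have : 2 * m < 2 ^ (2 * m) := Nat.lt_two_pow_self
    omega
  · rw [card_Rg, card_E]
    have h1 := card_heavy m (k + 1)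
    have h2 := centralBinom_sq_le m
    -- real versions
    have h1' : (4 : ℝ) ^ m ≤ 2 * ((heavy (2 * m) (2 * (k + 1))).card : ℝ) +
        2 * ((k : ℝ) + 1) * (m.centralBinom : ℝ) := by exact_mod_cast h1
    have h2' : (m.centralBinom : ℝ) ^ 2 * (2 * (m : ℝ) + 1) ≤ (16 : ℝ) ^ m := by
      exact_mod_cast h2
    have h3 : ((k : ℝ) + 1) * (m.centralBinom : ℝ) ≤ (1 / 2 - α) * 4 ^ m := by
      have h16 : (16 : ℝ) ^ m = ((4 : ℝ) ^ m) ^ 2 := by
        rw [← pow_mul, mul_comm m 2, pow_mul]; norm_num
      have h4 : (((k : ℝ) + 1) / (1 / 2 - α)) ^ 2 ≤ 2 * (m : ℝ) + 1 := by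
        have : (m₀ : ℝ) ≤ m := by exact_mod_cast (by omega : m₀ ≤ m)
        have : (0 : ℝ) ≤ m := Nat.cast_nonneg _
        linarith
      have h5 : ((((k : ℝ) + 1) / (1 / 2 - α)) * m.centralBinom) ^ 2 ≤ ((4 : ℝ) ^ m) ^ 2 := by
        rw [← h16]
        calc ((((k : ℝ) + 1) / (1 / 2 - α)) * m.centralBinom) ^ 2
            = (m.centralBinom : ℝ) ^ 2 * (((k : ℝ) + 1) / (1 / 2 - α)) ^ 2 := by ring
          _ ≤ (m.centralBinom : ℝ) ^ 2 * (2 * (m : ℝ) + 1) := by gcongr
          _ ≤ _ := h2'
      have h6 := abs_le_of_sq_le_sq' h5 (by positivity)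
      have h7 := h6.2
      rw [div_mul_eq_mul_div, div_le_iff₀ hε] at h7
      linarith
    have h8 : (2 : ℝ) ^ (2 * m) = 4 ^ m := by rw [pow_mul]; norm_num
    push_cast
    rw [h8]
    nlinarith
  · intro R₀ hR₀
    refine main (2 * m) (2 * (k + 1)) k (by omega) ?_ R₀ hR₀
    calc k < 2 ^ k := Nat.lt_two_pow_self
      _ ≤ 2 ^ (2 * (k + 1)) := Nat.pow_le_pow_right (by norm_num) (by omega)

end Pool.Agent.Results.MP_96ce97_co.NoLargeSubring
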